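import Pool.Agent.Run7.h647.EN.Cnt

/-! # Enclosed and exterior empty squares of a self-avoiding polygon: probability -/

set_option autoImplicit false

namespace Run7.h647.EN

open scoped Classical
open Finset
open Run7.h738.PG Run7.h738.ND

theorem log_ge {n : ℕ} (hn : 2 ≤ n) : 1 ≤ 3 * Real.log n ^ 2 := by
  have hn' : (2 : ℝ) ≤ n := by exact_mod_cast hn
  have h1 : (0.69 : ℝ) < Real.log n := by
    have h2 := Real.log_two_gt_d9
    have h3 : Real.log 2 ≤ Real.log n := Real.log_le_log (by norm_num) hn'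
    linarith
  nlinarith

theorem exp_two_le (k : ℕ) : Real.exp (-(2 * (k : ℝ))) ≤ (1 / 2) ^ k := by
  rw [show -(2 * (k : ℝ)) = (k : ℝ) * (-2) by ring, Real.exp_nat_mul]
  refine pow_le_pow_left₀ (Real.exp_pos _).le ?_ k
  rw [Real.exp_neg, one_div]
  refine inv_anti₀ (by norm_num) ?_
  have := Real.add_one_le_exp (2 : ℝ)
  linarith

theorem half_sum (W : ℕ) : ∑ w ∈ Finset.range W, (1 / 2 : ℝ) ^ (w + 1) = 1 - (1 / 2) ^ W := by
  induction W with
  | zero => simp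
  | succ W ih =>
    rw [Finset.sum_range_succ, ih]
    ring

theorem XA_le_sq (w : ℕ) {m : ℕ} (hm : 0 < m) (f : ZMod m → ℤ × ℤ) (s : ZMod m) (a : ℕ) :
    XA w f s a ≤ m * m := by
  have hNZ : NeZero m := ⟨by omega⟩
  unfold XA
  refine (Set.ncard_le_ncard (Set.subset_univ _) (Set.toFinite _)).trans ?_
  rw [Set.ncard_univ, Nat.card_prod, Nat.card_zmod]

/-- all distances at once -/
theorem poly_all_w : ∃ K : ℝ, 1 < K ∧ ∀ n : ℕ, 2 ≤ n → ∀ x : ℝ, 0 ≤ x →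
    (({f | Loop (2 * n) f ∧ ∃ (w : ℕ) (s : ZMod (2 * n)) (a : ℕ), 1 ≤ w ∧
      K ^ w * (Real.log n ^ 2 + x) < XA w f s a} : Set (ZMod (2 * n) → ℤ × ℤ)).ncard : ℝ) ≤
      Real.exp (-x) * (({f | Loop (2 * n) f} : Set (ZMod (2 * n) → ℤ × ℤ)).ncard : ℝ) := by
  obtain ⟨K, hK, h⟩ := all_close
  refine ⟨7 * K, by linarith, fun n hn x hx => ?_⟩
  have hl := log_ge hn
  set l := Real.log n ^ 2 with hldef
  have hl0 : 0 ≤ l := by rw [hldef]; positivity
  have hcmp : ∀ w : ℕ, 1 ≤ w → K ^ w * (l + (x + 2 * w)) ≤ (7 * K) ^ w * (l + x) := by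
    intro w hw
    have h1 : (1 : ℝ) + 6 * w ≤ 7 ^ w := by
      have := one_add_mul_le_pow (show (-2 : ℝ) ≤ 6 by norm_num) w
      norm_num at this
      linarith
    have hw' : (0 : ℝ) ≤ w := Nat.cast_nonneg _
    have h2 : l + (x + 2 * w) ≤ (1 + 6 * w) * (l + x) := by
      have : (2 : ℝ) * w * 1 ≤ 2 * w * (3 * l) := mul_le_mul_of_nonneg_left hl (by positivity)
      have : 0 ≤ (w : ℝ) * x := by positivity
      nlinarith
    rw [mul_pow]
    have h3 : (0 : ℝ) < K ^ w := by positivity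
    calc K ^ w * (l + (x + 2 * w)) ≤ K ^ w * ((1 + 6 * w) * (l + x)) :=
          mul_le_mul_of_nonneg_left h2 h3.le
      _ ≤ K ^ w * (7 ^ w * (l + x)) :=
          mul_le_mul_of_nonneg_left (mul_le_mul_of_nonneg_right h1 (by positivity)) h3.le
      _ = _ := by ring
  have hm0 : 0 < 2 * n := by omega
  set W := (2 * n) * (2 * n) with hW
  have hLfin := Loop_finite (2 * n) hm0
  set B : ℕ → Set (ZMod (2 * n) → ℤ × ℤ) := fun w => {f | Loop (2 * n) f ∧
    ¬ ((∀ (s : ZMod (2 * n)) (a : ℕ), (XA w f s a : ℝ) ≤ K ^ w * (Real.log n ^ 2 + (x + 2 * w))) ∧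
      ∀ l : ℕ, 1 ≤ l → (FA w f l : ℝ) ≤
        K ^ w * ((n : ℝ) / l) * (Real.log n ^ 2 + (x + 2 * w)))} with hB
  have hfin : ∀ w : ℕ, (B w).Finite := fun w => hLfin.subset (fun _ h => h.1)
  have hsub : ({f | Loop (2 * n) f ∧ ∃ (w : ℕ) (s : ZMod (2 * n)) (a : ℕ), 1 ≤ w ∧
      (7 * K) ^ w * (l + x) < XA w f s a} : Set (ZMod (2 * n) → ℤ × ℤ)) ⊆
      ((Finset.range W).biUnion (fun w => (hfin (w + 1)).toFinset) :
        Finset (ZMod (2 * n) → ℤ × ℤ)) := by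
    rintro f ⟨h1, w, s, a, hw, h2⟩
    have h3 := (hcmp w hw).trans_lt h2
    have h4 := XA_le_sq w hm0 f s a
    have h5 : (XA w f s a : ℝ) ≤ W := by exact_mod_cast h4
    have h6 : (w : ℝ) ≤ W := by
      have k1 : (1 : ℝ) ≤ K ^ w := one_le_pow₀ hK.le
      have k2 : (0 : ℝ) ≤ w := Nat.cast_nonneg _
      have k3 : 1 * (l + (x + 2 * w)) ≤ K ^ w * (l + (x + 2 * w)) :=
        mul_le_mul_of_nonneg_right k1 (by positivity)
      linarith
    have h7 : w ≤ W := by exact_mod_cast h6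
    rw [Finset.mem_coe, Finset.mem_biUnion]
    refine ⟨w - 1, Finset.mem_range.2 (by omega), ?_⟩
    rw [Set.Finite.mem_toFinset, show w - 1 + 1 = w by omega]
    exact ⟨h1, fun hcon => absurd (hcon.1 s a) (not_le.2 h3)⟩
  have h1 := Set.ncard_le_ncard hsub (Finset.finite_toSet _)
  rw [Set.ncard_coe_finset] at h1
  have h2 := h1.trans Finset.card_biUnion_le
  set ℓ := (({f | Loop (2 * n) f} : Set (ZMod (2 * n) → ℤ × ℤ)).ncard : ℝ) with hℓ
  have hℓ0 : 0 ≤ ℓ := Nat.cast_nonneg _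
  have h3 : ∀ w ∈ Finset.range W, (((hfin (w + 1)).toFinset).card : ℝ) ≤
      (1 / 2 : ℝ) ^ (w + 1) * (Real.exp (-x) * ℓ) := by
    intro w _
    have h4 := h (w + 1) n (by omega) hn (x + 2 * ((w + 1 : ℕ) : ℝ)) (by positivity)
    rw [← Set.ncard_eq_toFinset_card _ (hfin (w + 1))]
    refine h4.trans ?_
    have h5 := exp_two_le (w + 1)
    rw [neg_add, Real.exp_add]
    calc Real.exp (-x) * Real.exp (-(2 * ((w + 1 : ℕ) : ℝ))) * ℓ
        ≤ Real.exp (-x) * (1 / 2 : ℝ) ^ (w + 1) * ℓ := by gcongr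
      _ = _ := by ring
  have h4 : ((∑ w ∈ Finset.range W, ((hfin (w + 1)).toFinset).card : ℕ) : ℝ) ≤
      Real.exp (-x) * ℓ := by
    rw [Nat.cast_sum]
    refine (Finset.sum_le_sum h3).trans ?_
    rw [← Finset.sum_mul, half_sum]
    have h5 : (0 : ℝ) ≤ (1 / 2) ^ W := by positivity
    have h6 : 0 ≤ Real.exp (-x) * ℓ := by positivity
    nlinarith
  refine le_trans ?_ h4
  exact_mod_cast h2

end Run7.h647.EN
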