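import Pool.Agent.Run7.h647.EN.Ring
import Pool.Agent.Run7.h738.PG.All

/-! # Enclosed and exterior empty squares of a self-avoiding polygon -/

set_option autoImplicit false

namespace Run7.h647.EN

open scoped Classical
open Finset
open Run7.h738.PG Run7.h738.ND

theorem V_zero {F : ℕ → ℤ × ℤ} {m : ℕ} (hm : F m = F 0) (hm1 : 1 ≤ m) {x y : ℤ}
    (hF : ∀ j, Nb (F j) (F (j + 1))) (h : ∀ j, j < m → F j ≠ (x, y)) :
    I F m (x, y) = I F m (x - 1, y) ∧ I F m (x, y) = I F m (x, y - 1) := by
  have h' : ∀ j, j ≤ m → F j ≠ (x, y) := by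
    intro j hj
    rcases Nat.lt_or_ge j m with h1 | h1
    · exact h j h1
    · rw [show j = m by omega, hm]
      exact h 0 (by omega)
  have e1 : ∑ j ∈ range m, vE (F j) (F (j + 1)) (x, y) = 0 := by
    refine sum_eq_zero (fun j hj => ?_)
    rw [mem_range] at hj
    unfold vE
    rw [if_neg]
    rintro ⟨h1, h2, h3⟩
    simp only at h2 h3
    have h4 := Nb_cases (hF j)
    rcases le_total (F j).2 (F (j + 1)).2 with h5 | h5
    · rw [min_eq_left h5] at h3
      exact h' j (by omega) (Prod.ext h2 h3)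
    · rw [min_eq_right h5] at h3
      exact h' (j + 1) (by omega) (Prod.ext (h1 ▸ h2) h3)
  have e2 : ∑ j ∈ range m, hE (F j) (F (j + 1)) (x, y) = 0 := by
    refine sum_eq_zero (fun j hj => ?_)
    rw [mem_range] at hj
    unfold hE
    rw [if_neg]
    rintro ⟨h1, h2, h3⟩
    simp only at h2 h3
    rcases le_total (F j).1 (F (j + 1)).1 with h5 | h5
    · rw [min_eq_left h5] at h3
      exact h' j (by omega) (Prod.ext h3 h2)
    · rw [min_eq_right h5] at h3
      exact h' (j + 1) (by omega) (Prod.ext h3 (h1 ▸ h2))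
  constructor
  · have h1 := I_h F m x y
    rw [e1] at h1
    have := add_self2 (I F m (x - 1, y))
    linear_combination h1 - this
  · have h1 := I_v hF hm x y
    rw [e2] at h1
    have := add_self2 (I F m (x, y - 1))
    linear_combination h1 - this

/-- the parity is constant on an empty block -/
theorem blk_const {F : ℕ → ℤ × ℤ} {m : ℕ} (hm : F m = F 0) (hm1 : 1 ≤ m)
    (hF : ∀ j, Nb (F j) (F (j + 1))) {d : ℕ} {c : ℤ × ℤ} (h : ∀ j, j < m → ¬ Bk d c (F j))
    {p q : ℤ × ℤ} (hp : Bk d c p) (hq : Bk d c q) : I F m p = I F m q := by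
  have hfree : ∀ x y : ℤ, Bk d c (x, y) →
      I F m (x, y) = I F m (x - 1, y) ∧ I F m (x, y) = I F m (x, y - 1) := by
    intro x y hxy
    refine V_zero hm hm1 hF (fun j hj hj2 => h j hj ?_)
    rw [hj2]
    exact hxy
  have key : ∀ p : ℤ × ℤ, Bk d c p → I F m p = I F m (c.1 + 1 - d, c.2 + 1 - d) := by
    intro p hp
    have hp' := hp
    unfold Bk at hp
    obtain ⟨i, hi⟩ : ∃ i : ℕ, p.1 = c.1 + 1 - d + i := ⟨(p.1 - (c.1 + 1 - d)).toNat, by omega⟩
    obtain ⟨k, hk⟩ : ∃ k : ℕ, p.2 = c.2 + 1 - d + k := ⟨(p.2 - (c.2 + 1 - d)).toNat, by omega⟩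
    have h1 : ∀ i : ℕ, (i : ℤ) < 2 * d →
        I F m (c.1 + 1 - d + i, p.2) = I F m (c.1 + 1 - d, p.2) := by
      intro i
      induction i with
      | zero => simp
      | succ i ih =>
        intro hi2
        rw [← ih (by push_cast at hi2; omega)]
        have := (hfree (c.1 + 1 - d + ((i + 1 : ℕ) : ℤ)) p.2 (by
          unfold Bk
          simp only
          push_cast at hi2 ⊢
          omega)).1
        rw [this]
        congr 2
        push_cast
        ring
    have h2 : ∀ k : ℕ, (k : ℤ) < 2 * d →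
        I F m (c.1 + 1 - d, c.2 + 1 - d + k) = I F m (c.1 + 1 - d, c.2 + 1 - d) := by
      intro k
      induction k with
      | zero => simp
      | succ k ih =>
        intro hk2
        rw [← ih (by push_cast at hk2; omega)]
        have := (hfree (c.1 + 1 - d) (c.2 + 1 - d + ((k + 1 : ℕ) : ℤ)) (by
          unfold Bk
          simp only
          push_cast at hk2 ⊢
          omega)).2
        rw [this]
        congr 2
        push_cast
        ring
    have h3 := h1 i (by omega)
    have h4 := h2 k (by omega)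
    rw [← hi] at h3
    rw [← hk] at h4
    rw [show p = (p.1, p.2) from rfl, h3, h4]
  rw [key p hp, key q hq]

/-- the cell with the lower left corner `p` is enclosed -/
def Inside {m : ℕ} (f : ZMod m → ℤ × ℤ) (p : ℤ × ℤ) : Prop :=
  Odd ({i | (f i).1 = (f (i + 1)).1 ∧ (f i).1 ≤ p.1 ∧ min (f i).2 (f (i + 1)).2 = p.2} :
    Set (ZMod m)).ncard

/-- the polygon, read from the time `s` on -/
def Fs {m : ℕ} (f : ZMod m → ℤ × ℤ) (s : ZMod m) (j : ℕ) : ℤ × ℤ := f (s + (j : ZMod m))

theorem sum_Fs {m : ℕ} [NeZero m] (s : ZMod m) (G : ZMod m → ZMod 2) :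
    ∑ j ∈ range m, G (s + (j : ZMod m)) = ∑ k : ZMod m, G k := by
  refine sum_nbij' (fun j : ℕ => s + (j : ZMod m)) (fun k => (k - s).val) ?_ ?_ ?_ ?_ ?_
  · intro j _
    exact mem_univ _
  · intro k _
    rw [mem_range]
    exact ZMod.val_lt _
  · intro j hj
    rw [mem_range] at hj
    simp only [add_sub_cancel_left]
    exact ZMod.val_cast_of_lt hj
  · intro k _
    rw [ZMod.natCast_zmod_val]
    ring
  · intro j _
    rfl

theorem I_Inside {m : ℕ} [NeZero m] (f : ZMod m → ℤ × ℤ) (s : ZMod m) (p : ℤ × ℤ) :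
    I (Fs f s) m p = 1 ↔ Inside f p := by
  have h1 : I (Fs f s) m p = (({i | (f i).1 = (f (i + 1)).1 ∧ (f i).1 ≤ p.1 ∧
      min (f i).2 (f (i + 1)).2 = p.2} : Set (ZMod m)).ncard : ZMod 2) := by
    unfold I Fs
    have e : ∀ j ∈ range m, vL (f (s + (j : ZMod m))) (f (s + ((j + 1 : ℕ) : ZMod m))) p =
        (fun k => vL (f k) (f (k + 1)) p) (s + (j : ZMod m)) := by
      intro j _
      simp only
      congr 2
      push_cast
      ring
    rw [sum_congr rfl e, sum_Fs s (fun k => vL (f k) (f (k + 1)) p)]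
    unfold vL
    rw [Finset.sum_boole]
    congr 1
    rw [← Set.ncard_coe_finset]
    congr 1
    ext i
    simp
  rw [h1, ZMod.natCast_eq_one_iff_odd]
  rfl

/-- a free square of `r × r` sites -/
def sq (u : ℤ × ℤ) (r : ℕ) : Set (ℤ × ℤ) :=
  {p | u.1 ≤ p.1 ∧ p.1 < u.1 + r ∧ u.2 ≤ p.2 ∧ p.2 < u.2 + r}

/-- disjoint squares near `v`, free of the polygon, whose sites have the property `S` -/
def Holes {m : ℕ} (f : ZMod m → ℤ × ℤ) (v : ℤ × ℤ) (R r M : ℕ) (S : ℤ × ℤ → Prop) : Prop :=
  ∃ u : Fin M → ℤ × ℤ, (∀ k, ∀ p ∈ sq (u k) r,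
    (|p.1 - v.1| ≤ R ∧ |p.2 - v.2| ≤ R) ∧ (∀ i, f i ≠ p) ∧ S p) ∧
    ∀ k l, k ≠ l → Disjoint (sq (u k) r) (sq (u l) r)

theorem An_inj {v p : ℤ × ℤ} {d k k' : ℕ} (h : An v (2 * d * k + d - 1) d p)
    (h' : An v (2 * d * k' + d - 1) d p) : k = k' := by
  by_contra hne
  wlog hlt : k < k' with H
  · exact H h' h (Ne.symm hne) (by omega)
  have h1 : 2 * d * (k + 1) ≤ 2 * d * k' := Nat.mul_le_mul_left _ hlt
  rw [mul_add, mul_one] at h1
  unfold An at h h'
  generalize 2 * d * k = A at *
  generalize 2 * d * k' = B at *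
  omega

/-- the deterministic part -/
theorem holes_det {m : ℕ} (hm : 3 ≤ m) {f : ZMod m → ℤ × ℤ} (hf : Loop m f) {R d r : ℕ}
    (hR : 1 ≤ R) (hd : 1 ≤ d) (hr : r ≤ 2 * d) {s t : ZMod m} (hst : ¬ Q (f s) R (f t))
    (η : ZMod 2) :
    ∃ M, (R + 1) / (2 * d) ≤ M + XA (4 * d) f s ((t - s).val + 1) ∧
      Holes f (f s) R r M (fun p => ∀ s', I (Fs f s') m p ≠ η) := by
  have hNZ : NeZero m := ⟨by omega⟩
  set a := (t - s).val with ha
  set F := Fs f s with hFdef
  have hF : ∀ j, Nb (F j) (F (j + 1)) := by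
    intro j
    have := hf.2.2 (s + (j : ZMod m))
    unfold Nb
    rw [hFdef]
    unfold Fs
    rw [add_assoc] at this
    push_cast
    exact this
  have hFm : F m = F 0 := by
    rw [hFdef]
    unfold Fs
    rw [ZMod.natCast_self, Nat.cast_zero]
  have hF0 : F 0 = f s := by
    rw [hFdef]
    unfold Fs
    simp
  have hFa : F a = f t := by
    rw [hFdef]
    unfold Fs
    rw [ha, ZMod.natCast_zmod_val]
    congr 1
    ring
  have ham : a < m := ZMod.val_lt _
  have ha1 : a + 1 < m := by
    by_contra hc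
    have h1 : a + 1 = m := by omega
    have h2 := hF a
    rw [h1, hFm, hF0, hFa] at h2
    have h3 := Nb_cases h2
    apply hst
    unfold Q
    omega
  set N := (R + 1) / (2 * d) with hN
  have hk : ∀ k, k < N → 2 * d * k + 2 * d ≤ R + 1 := by
    intro k hk
    have h1 : 2 * d * (k + 1) ≤ 2 * d * N := Nat.mul_le_mul_left _ hk
    have h2 : 2 * d * N ≤ R + 1 := Nat.mul_div_le _ _
    rw [mul_add, mul_one] at h1
    omega
  -- the two kinds of annuli
  set P : ℕ → Prop := fun k => ∃ j j', j ≤ a ∧ a < j' ∧ j' < m ∧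
    An (f s) (2 * d * k + d - 1) d (F j) ∧
      |(F j).1 - (F j').1| + |(F j).2 - (F j').2| ≤ 4 * d with hP
  set H : ℕ → Prop := fun k => ∃ c, RC (f s) (2 * d * k + d - 1) c ∧
    (∀ j, j < m → ¬ Bk d c (F j)) ∧ I F m c ≠ η with hH
  have hPH : ∀ k, k < N → P k ∨ H k := by
    intro k hkN
    refine ring hF hFm ha1 hd (f s) (2 * d * k + d - 1) ?_ ?_ η
    · rw [hF0]
      unfold Q
      omega
    · rw [hFa]
      intro h
      apply hst
      have := hk k hkN
      unfold Q at h ⊢
      generalize 2 * d * k = A at *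
      omega
  set GP := (range N).filter P with hGP
  set GH := (range N).filter H with hGH
  have hcard : N ≤ GH.card + GP.card := by
    calc N = (range N).card := (card_range N).symm
      _ ≤ (GH ∪ GP).card := by
          refine card_le_card (fun k hk => ?_)
          rw [mem_union, hGH, hGP, mem_filter, mem_filter]
          rcases hPH k (mem_range.1 hk) with h | h
          · exact Or.inr ⟨hk, h⟩
          · exact Or.inl ⟨hk, h⟩
      _ ≤ _ := card_union_le _ _
  have hGPX : GP.card ≤ XA (4 * d) f s (a + 1) := by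
    have hch : ∀ k : ℕ, ∃ q : ℕ × ℕ, P k → q.1 ≤ a ∧ a < q.2 ∧ q.2 < m ∧
        An (f s) (2 * d * k + d - 1) d (F q.1) ∧
        |(F q.1).1 - (F q.2).1| + |(F q.1).2 - (F q.2).2| ≤ 4 * d := by
      intro k
      by_cases h : P k
      · obtain ⟨j, j', h1⟩ := h
        exact ⟨(j, j'), fun _ => h1⟩
      · exact ⟨(0, 0), fun h' => absurd h' h⟩
    choose q hq using hch
    unfold XA
    rw [← Set.ncard_coe_finset]
    refine Set.ncard_le_ncard_of_injOn
      (fun k => (s + ((q k).1 : ZMod m), s + ((q k).2 : ZMod m))) ?_ ?_ (Set.toFinite _)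
    · intro k hk
      rw [hGP, mem_coe, mem_filter] at hk
      obtain ⟨h1, h2, h3, h4, h5⟩ := hq k hk.2
      refine ⟨?_, ?_, ?_⟩
      · simp only [add_sub_cancel_left]
        rw [ZMod.val_cast_of_lt (by omega)]
        omega
      · simp only [add_sub_cancel_left]
        rw [ZMod.val_cast_of_lt (by omega)]
        omega
      · simp only
        rw [hFdef] at h5
        unfold Fs at h5
        unfold D
        rcases abs_cases ((f (s + ((q k).1 : ZMod m))).1 - (f (s + ((q k).2 : ZMod m))).1) with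
          e1 | e1 <;>
        rcases abs_cases ((f (s + ((q k).1 : ZMod m))).2 - (f (s + ((q k).2 : ZMod m))).2) with
          e2 | e2 <;> omega
    · intro k hk k' hk' hkk
      rw [hGP, mem_coe, mem_filter] at hk hk'
      obtain ⟨h1, h2, h3, h4, h5⟩ := hq k hk.2
      obtain ⟨h1', h2', h3', h4', h5'⟩ := hq k' hk'.2
      simp only [Prod.mk.injEq] at hkk
      have e1 : (q k).1 = (q k').1 := nat_eq (by omega) (by omega) (add_left_cancel hkk.1)
      rw [e1] at h4
      exact An_inj h4 h4'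
  refine ⟨GH.card, by omega, ?_⟩
  have hch : ∀ k : ℕ, ∃ c : ℤ × ℤ, H k → RC (f s) (2 * d * k + d - 1) c ∧
      (∀ j, j < m → ¬ Bk d c (F j)) ∧ I F m c ≠ η := by
    intro k
    by_cases h : H k
    · obtain ⟨c, h1⟩ := h
      exact ⟨c, fun _ => h1⟩
    · exact ⟨0, fun h' => absurd h' h⟩
  choose c hc using hch
  set en := GH.orderEmbOfFin rfl with hen
  have hin : ∀ k : Fin GH.card, ∀ p ∈ sq ((c (en k)).1 + 1 - d, (c (en k)).2 + 1 - d) r,
      Bk d (c (en k)) p := by
    rintro k p ⟨h1, h2, h3, h4⟩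
    simp only at h1 h2 h3 h4
    unfold Bk
    omega
  have hmem : ∀ k, en k < N ∧ H (en k) := by
    intro k
    have : en k ∈ GH := orderEmbOfFin_mem GH rfl k
    exact ⟨mem_range.1 (mem_filter.1 this).1, (mem_filter.1 this).2⟩
  refine ⟨fun k => ((c (en k)).1 + 1 - d, (c (en k)).2 + 1 - d), ?_, ?_⟩
  · intro k p hp
    have hb := hin k p hp
    obtain ⟨h1, h2, h3⟩ := hc (en k) (hmem k).2
    have hA := RC_An h1 hb
    have hkR := hk (en k) (hmem k).1
    refine ⟨?_, ?_, ?_⟩
    · unfold An at hA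
      rw [abs_le, abs_le]
      generalize 2 * d * (en k) = A at *
      omega
    · intro i hi
      apply h2 (i - s).val (ZMod.val_lt _)
      have : F (i - s).val = f i := by
        rw [hFdef]
        unfold Fs
        rw [ZMod.natCast_zmod_val]
        congr 1
        ring
      rw [this, hi]
      exact hb
    · intro s'
      have e1 : I (Fs f s') m p = I F m p := by
        have e4 : (I (Fs f s') m p = 1 ↔ I (Fs f s) m p = 1) :=
          (I_Inside f s' p).trans (I_Inside f s p).symm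
        rw [hFdef]
        generalize I (Fs f s') m p = x at *
        generalize I (Fs f s) m p = y at *
        revert x y
        decide
      have hcB : Bk d (c (en k)) (c (en k)) := by
        unfold Bk
        omega
      rw [e1, blk_const hFm (by omega) hF h2 hb hcB]
      exact h3
  · intro k l hkl
    rw [Set.disjoint_left]
    intro p hp hp'
    have hb := hin k p hp
    have hb' := hin l p hp'
    have hA := RC_An (hc (en k) (hmem k).2).1 hb
    have hA' := RC_An (hc (en l) (hmem l).2).1 hb'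
    exact hkl (en.injective (An_inj hA hA'))

end Run7.h647.EN
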