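import Pool.Agent.Run7.h647.EN.Cnt

/-! # Many enclosed and exterior empty squares -/

set_option autoImplicit false

namespace Run7.h647.EN

open scoped Classical
open Finset
open Run7.h738.PG Run7.h738.ND

/-- pairwise disjoint squares, free of the polygon, whose sites have the property `S` -/
def Sqs {m : ℕ} (f : ZMod m → ℤ × ℤ) (r : ℕ) (S : ℤ × ℤ → Prop) (U : Finset (ℤ × ℤ)) : Prop :=
  (∀ u ∈ U, ∀ p ∈ sq u r, (∀ i, f i ≠ p) ∧ S p) ∧
    ∀ u ∈ U, ∀ u' ∈ U, u ≠ u' → Disjoint (sq u r) (sq u' r)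

theorem corner_mem {u : ℤ × ℤ} {r : ℕ} (hr : 1 ≤ r) : u ∈ sq u r := by
  unfold sq
  simp only [Set.mem_ofPred_eq]
  omega

theorem Holes_Sqs {m : ℕ} {f : ZMod m → ℤ × ℤ} {v : ℤ × ℤ} {R r M : ℕ} {S : ℤ × ℤ → Prop}
    (hr : 1 ≤ r) (h : Holes f v R r M S) : ∃ U : Finset (ℤ × ℤ), U.card = M ∧ Sqs f r S U ∧
      ∀ u ∈ U, ∀ p ∈ sq u r, |p.1 - v.1| ≤ R ∧ |p.2 - v.2| ≤ R := by
  obtain ⟨u, h1, h2⟩ := h
  have hinj : Function.Injective u := by
    intro k l hkl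
    by_contra hne
    have h3 := h2 k l hne
    rw [hkl] at h3
    exact (Set.disjoint_left.1 h3) (corner_mem hr) (corner_mem hr)
  refine ⟨univ.image u, ?_, ⟨?_, ?_⟩, ?_⟩
  · rw [card_image_of_injective _ hinj, card_univ, Fintype.card_fin]
  · intro w hw p hp
    obtain ⟨k, -, rfl⟩ := mem_image.1 hw
    exact (h1 k p hp).2
  · intro w hw w' hw' hne
    obtain ⟨k, -, rfl⟩ := mem_image.1 hw
    obtain ⟨l, -, rfl⟩ := mem_image.1 hw'
    exact h2 k l (fun h => hne (by rw [h]))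
  · intro w hw p hp
    obtain ⟨k, -, rfl⟩ := mem_image.1 hw
    exact (h1 k p hp).1

theorem Sqs_mono {m : ℕ} {f : ZMod m → ℤ × ℤ} {r : ℕ} {S S' : ℤ × ℤ → Prop}
    (h : ∀ p, S p → S' p) {U : Finset (ℤ × ℤ)} (hU : Sqs f r S U) : Sqs f r S' U :=
  ⟨fun u hu p hp => ⟨(hU.1 u hu p hp).1, h p (hU.1 u hu p hp).2⟩, hU.2⟩

/-- many squares near every site -/
theorem loc_sq {n : ℕ} (hn : 2 ≤ n) {f : ZMod (2 * n) → ℤ × ℤ} (hf : Loop (2 * n) f) {K0 L : ℝ}
    (hK0 : 1 < K0) (hL : 1 ≤ 3 * L)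
    (hX : ∀ (w : ℕ) (s : ZMod (2 * n)) (a : ℕ), 1 ≤ w → (XA w f s a : ℝ) ≤ K0 ^ w * L)
    {r R : ℕ} (hr : 1 ≤ r) (hR : (32 * K0 ^ 4) ^ r * L ≤ R) {s t : ZMod (2 * n)}
    (hst : ¬ Q (f s) R (f t)) (η : ZMod 2) :
    ∃ U : Finset (ℤ × ℤ), R ≤ 4 * r * U.card ∧
      Sqs f r (fun p => ∀ s', I (Fs f s') (2 * n) p ≠ η) U ∧
      ∀ u ∈ U, ∀ p ∈ sq u r, |p.1 - (f s).1| ≤ R ∧ |p.2 - (f s).2| ≤ R := by
  have hr' : (1 : ℝ) ≤ r := by exact_mod_cast hr
  have hL0 : 0 < L := by linarith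
  have k1 : (1 : ℝ) ≤ K0 ^ (4 * r) := one_le_pow₀ hK0.le
  have k2 : 16 * (r : ℝ) * K0 ^ (4 * r) ≤ (32 * K0 ^ 4) ^ r := by
    have h7 : (r : ℝ) ≤ 2 ^ r := by
      exact_mod_cast Nat.lt_two_pow_self.le
    have h8 : (16 : ℝ) ≤ 16 ^ r := le_self_pow₀ (by norm_num) (by omega)
    calc 16 * (r : ℝ) * K0 ^ (4 * r) ≤ 16 ^ r * 2 ^ r * K0 ^ (4 * r) := by gcongr
      _ = _ := by
        rw [mul_pow, ← pow_mul, show (32 : ℝ) = 16 * 2 by norm_num, mul_pow]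
  set d := (r + 1) / 2 with hd
  have hd1 : 1 ≤ d := by omega
  have hX1 := hX (4 * d) s ((t - s).val + 1) (by omega)
  have hX2 : (XA (4 * d) f s ((t - s).val + 1) : ℝ) ≤ K0 ^ (4 * r) * L :=
    hX1.trans (mul_le_mul_of_nonneg_right (pow_le_pow_right₀ hK0.le (by omega)) hL0.le)
  have hR1 : 1 ≤ R := by
    by_contra hc
    have : R = 0 := by omega
    rw [this, Nat.cast_zero] at hR
    have : 0 < (32 * K0 ^ 4) ^ r * L := by positivity
    linarith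
  obtain ⟨M, hM, hH⟩ := holes_det (r := r) (by omega) hf hR1 hd1 (by omega) hst η
  obtain ⟨U, hU, hS, hB⟩ := Holes_Sqs hr hH
  refine ⟨U, ?_, hS, hB⟩
  rw [hU]
  set X := XA (4 * d) f s ((t - s).val + 1) with hXdef
  have h1 : R + 1 < 2 * d * ((R + 1) / (2 * d) + 1) :=
    Nat.lt_mul_div_succ _ (by omega)
  have h2 : R + 1 ≤ 2 * r * (M + X + 1) := by
    calc R + 1 ≤ 2 * d * ((R + 1) / (2 * d) + 1) := h1.le
      _ ≤ 2 * r * (M + X + 1) := Nat.mul_le_mul (by omega) (by omega)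
  have h3 : (R : ℝ) ≤ 2 * r * (M + X + 1) := by
    have : ((R + 1 : ℕ) : ℝ) ≤ ((2 * r * (M + X + 1) : ℕ) : ℝ) := by exact_mod_cast h2
    push_cast at this
    linarith
  have h4 : 4 * (r : ℝ) * (X + 1) ≤ R := by
    calc 4 * (r : ℝ) * (X + 1) ≤ 4 * r * (K0 ^ (4 * r) * L + 3 * (K0 ^ (4 * r) * L)) := by
          refine mul_le_mul_of_nonneg_left ?_ (by positivity)
          have : 1 * (3 * L) ≤ K0 ^ (4 * r) * (3 * L) :=
            mul_le_mul_of_nonneg_right k1 (by positivity)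
          linarith
      _ = (16 * r * K0 ^ (4 * r)) * L := by ring
      _ ≤ (32 * K0 ^ 4) ^ r * L := mul_le_mul_of_nonneg_right k2 hL0.le
      _ ≤ R := hR
  have h5 : (R : ℝ) ≤ 4 * r * M := by
    have e : 2 * (r : ℝ) * (M + X + 1) = 2 * r * M + (4 * r * (X + 1)) / 2 := by ring
    rw [e] at h3
    linarith
  exact_mod_cast h5

/-- a maximal separated set of sites -/
theorem packing {m : ℕ} [NeZero m] {f : ZMod m → ℤ × ℤ} (hf : Function.Injective f) (R : ℕ) :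
    ∃ T : Finset (ZMod m), (∀ i ∈ T, ∀ j ∈ T, i ≠ j → ¬ Q (f i) (2 * R) (f j)) ∧
      m ≤ T.card * (4 * R + 1) ^ 2 := by
  set 𝒯 : Finset (Finset (ZMod m)) := univ.filter (fun T =>
    ∀ i ∈ T, ∀ j ∈ T, i ≠ j → ¬ Q (f i) (2 * R) (f j)) with h𝒯
  have hne : 𝒯.Nonempty := ⟨∅, by rw [h𝒯, mem_filter]; simp⟩
  obtain ⟨T, hT, hmax⟩ := exists_max_image 𝒯 card hne
  rw [h𝒯, mem_filter] at hT
  refine ⟨T, hT.2, ?_⟩
  have hQs : ∀ p q : ℤ × ℤ, Q p (2 * R) q → Q q (2 * R) p := by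
    intro p q h
    unfold Q at h ⊢
    omega
  have hcov : ∀ i : ZMod m, ∃ t ∈ T, Q (f t) (2 * R) (f i) := by
    intro i
    by_contra hcon
    push Not at hcon
    have hi : i ∉ T := by
      intro hi
      apply hcon i hi
      unfold Q
      omega
    have h1 : insert i T ∈ 𝒯 := by
      rw [h𝒯, mem_filter]
      refine ⟨mem_univ _, ?_⟩
      intro a ha b hb hab
      rw [mem_insert] at ha hb
      rcases ha with rfl | ha <;> rcases hb with rfl | hb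
      · exact absurd rfl hab
      · exact fun h => hcon b hb (hQs _ _ h)
      · exact hcon a ha
      · exact hT.2 a ha b hb hab
    have h2 := hmax _ h1
    rw [card_insert_of_notMem hi] at h2
    omega
  have h1 : (univ : Finset (ZMod m)) ⊆ T.biUnion (fun t => univ.filter (fun i =>
      Q (f t) (2 * R) (f i))) := by
    intro i _
    obtain ⟨t, ht, h⟩ := hcov i
    rw [mem_biUnion]
    exact ⟨t, ht, mem_filter.2 ⟨mem_univ _, h⟩⟩
  have h2 : ∀ t ∈ T, (univ.filter (fun i => Q (f t) (2 * R) (f i))).card ≤ (4 * R + 1) ^ 2 := by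
    intro t _
    have h3 : (univ.filter (fun i => Q (f t) (2 * R) (f i))).card ≤
        ((Icc ((f t).1 - 2 * R) ((f t).1 + 2 * R)) ×ˢ
          (Icc ((f t).2 - 2 * R) ((f t).2 + 2 * R))).card := by
      refine card_le_card_of_injOn f ?_ (fun i _ j _ h => hf h)
      intro i hi
      rw [mem_coe, mem_filter] at hi
      have h4 := hi.2
      unfold Q at h4
      push_cast at h4
      rw [mem_coe, mem_product, mem_Icc, mem_Icc]
      exact h4
    refine h3.trans (le_of_eq ?_)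
    rw [card_product, Int.card_Icc, Int.card_Icc, pow_two]
    congr 1 <;> omega
  have h3 := (card_le_card h1).trans (card_biUnion_le_card_mul T _ _ h2)
  rw [card_univ, ZMod.card] at h3
  exact h3

theorem far_site {n R : ℕ} (hn : 2 ≤ n) {f : ZMod (2 * n) → ℤ × ℤ} (hf : Function.Injective f)
    (h : (2 * R + 1) ^ 2 < 2 * n) (s : ZMod (2 * n)) : ∃ t, ¬ Q (f s) R (f t) := by
  by_contra hcon
  push Not at hcon
  have hNZ : NeZero (2 * n) := ⟨by omega⟩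
  have h3 : (univ : Finset (ZMod (2 * n))).card ≤
      ((Icc ((f s).1 - R) ((f s).1 + R)) ×ˢ (Icc ((f s).2 - R) ((f s).2 + R))).card := by
    refine card_le_card_of_injOn f ?_ (fun i _ j _ h => hf h)
    intro i _
    have h4 := hcon i
    unfold Q at h4
    rw [mem_coe, mem_product, mem_Icc, mem_Icc]
    exact h4
  rw [card_univ, ZMod.card, card_product, Int.card_Icc, Int.card_Icc] at h3
  have e : ((f s).1 + R + 1 - ((f s).1 - R)).toNat = 2 * R + 1 := by omega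
  have e' : ((f s).2 + R + 1 - ((f s).2 - R)).toNat = 2 * R + 1 := by omega
  rw [e, e', ← pow_two] at h3
  omega

/-- many squares in all -/
theorem glob_sq {n : ℕ} (hn : 2 ≤ n) {f : ZMod (2 * n) → ℤ × ℤ} (hf : Loop (2 * n) f) {K0 L : ℝ}
    (hK0 : 1 < K0) (hL : 1 ≤ 3 * L)
    (hX : ∀ (w : ℕ) (s : ZMod (2 * n)) (a : ℕ), 1 ≤ w → (XA w f s a : ℝ) ≤ K0 ^ w * L)
    {r : ℕ} (hr : 1 ≤ r) (hR : (6400 * K0 ^ 4) ^ r * L ≤ Real.sqrt n) (η : ZMod 2) :
    ∃ U : Finset (ℤ × ℤ), (n : ℝ) ≤ (6400 * K0 ^ 4) ^ r * L * U.card ∧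
      Sqs f r (fun p => ∀ s', I (Fs f s') (2 * n) p ≠ η) U ∧
      ∀ u ∈ U, ∃ s, ∀ p ∈ sq u r, ((|p.1 - (f s).1| : ℤ) : ℝ) ≤ (6400 * K0 ^ 4) ^ r * L ∧
        ((|p.2 - (f s).2| : ℤ) : ℝ) ≤ (6400 * K0 ^ 4) ^ r * L := by
  have hNZ : NeZero (2 * n) := ⟨by omega⟩
  have hr' : (1 : ℝ) ≤ r := by exact_mod_cast hr
  have hL0 : 0 < L := by linarith
  set K1 : ℝ := 32 * K0 ^ 4 with hK1
  have hK04 : 1 < K0 ^ 4 := one_lt_pow₀ hK0 (by norm_num)
  have e6400 : 6400 * K0 ^ 4 = 200 * K1 := by rw [hK1]; ring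
  rw [e6400] at hR ⊢
  set R := ⌈K1 ^ r * L⌉₊ with hRdef
  have hR1 : K1 ^ r * L ≤ R := Nat.le_ceil _
  have hK1r : 32 ≤ K1 ^ r := by
    calc (32 : ℝ) ≤ K1 := by linarith
      _ ≤ K1 ^ r := le_self_pow₀ (by linarith) (by omega)
  have hbig : 1 ≤ K1 ^ r * L := by
    have : 32 * L ≤ K1 ^ r * L := mul_le_mul_of_nonneg_right hK1r hL0.le
    linarith
  have hR2 : (R : ℝ) ≤ 2 * (K1 ^ r * L) := by
    have := (Nat.ceil_lt_add_one (show 0 ≤ K1 ^ r * L by positivity)).le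
    rw [← hRdef] at this
    linarith
  have h200 : (200 : ℝ) ≤ 200 ^ r := le_self_pow₀ (by norm_num) (by omega)
  have hKr : 200 * (K1 ^ r * L) ≤ (200 * K1) ^ r * L := by
    rw [mul_pow (200 : ℝ) K1 r, mul_assoc]
    exact mul_le_mul_of_nonneg_right h200 (by positivity)
  have hR1' : (1 : ℝ) ≤ R := hbig.trans hR1
  -- the squares are smaller than the polygon
  have hsmall : (2 * R + 1) ^ 2 < 2 * n := by
    have h1 : (2 * (R : ℝ) + 1) ≤ Real.sqrt n := by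
      have : 3 * (R : ℝ) ≤ 6 * (K1 ^ r * L) := by linarith
      linarith
    have h2 : (2 * (R : ℝ) + 1) ^ 2 ≤ n := by
      calc (2 * (R : ℝ) + 1) ^ 2 ≤ Real.sqrt n ^ 2 := pow_le_pow_left₀ (by positivity) h1 2
        _ = n := Real.sq_sqrt (Nat.cast_nonneg _)
    have h3 : (2 * R + 1) ^ 2 ≤ n := by exact_mod_cast h2
    omega
  obtain ⟨T, hT, hcard⟩ := packing hf.2.1 R
  have hex : ∀ s : ZMod (2 * n), ∃ U : Finset (ℤ × ℤ), R ≤ 4 * r * U.card ∧
      Sqs f r (fun p => ∀ s', I (Fs f s') (2 * n) p ≠ η) U ∧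
      ∀ u ∈ U, ∀ p ∈ sq u r, |p.1 - (f s).1| ≤ R ∧ |p.2 - (f s).2| ≤ R := by
    intro s
    obtain ⟨t, ht⟩ := far_site hn hf.2.1 hsmall s
    exact loc_sq hn hf hK0 hL hX hr hR1 ht η
  choose U hU1 hU2 hU3 using hex
  have hsep : ∀ t ∈ T, ∀ t' ∈ T, t ≠ t' → ∀ u ∈ U t, ∀ u' ∈ U t',
      Disjoint (sq u r) (sq u' r) := by
    intro t ht t' ht' hne u hu u' hu'
    rw [Set.disjoint_left]
    intro p hp hp'
    have h1 := hU3 t u hu p hp
    have h2 := hU3 t' u' hu' p hp'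
    apply hT t ht t' ht' hne
    rw [abs_le, abs_le] at h1 h2
    unfold Q
    push_cast
    omega
  refine ⟨T.biUnion U, ?_, ⟨?_, ?_⟩, ?_⟩
  · have h1 : (T.biUnion U).card = ∑ t ∈ T, (U t).card := by
      refine card_biUnion (fun t ht t' ht' hne => ?_)
      change Disjoint (U t) (U t')
      rw [disjoint_left]
      intro u hu hu'
      exact Set.disjoint_left.1 (hsep t ht t' ht' hne u hu u hu') (corner_mem hr) (corner_mem hr)
    have h2 : T.card * R ≤ 4 * r * (T.biUnion U).card := by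
      rw [h1, mul_sum, ← smul_eq_mul, ← sum_const]
      exact sum_le_sum (fun t _ => hU1 t)
    have h3 : (T.card : ℝ) * R ≤ 4 * r * ((T.biUnion U).card : ℝ) := by exact_mod_cast h2
    have h4 : 2 * (n : ℝ) ≤ T.card * (4 * R + 1) ^ 2 := by exact_mod_cast hcard
    set c := ((T.biUnion U).card : ℝ) with hc
    have h5 : (4 * (R : ℝ) + 1) ^ 2 ≤ 25 * R ^ 2 := by nlinarith
    have h6 : 2 * (n : ℝ) ≤ 25 * R * (4 * r * c) := by
      calc 2 * (n : ℝ) ≤ T.card * (25 * R ^ 2) :=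
            h4.trans (mul_le_mul_of_nonneg_left h5 (Nat.cast_nonneg _))
        _ = 25 * R * (T.card * R) := by ring
        _ ≤ 25 * R * (4 * r * c) := mul_le_mul_of_nonneg_left h3 (by positivity)
    have h7 : (r : ℝ) ≤ 2 ^ r := by
      exact_mod_cast Nat.lt_two_pow_self.le
    have h8 : 100 * (r : ℝ) ≤ 200 ^ r := by
      have h100 : (100 : ℝ) ≤ 100 ^ r := le_self_pow₀ (by norm_num) (by omega)
      calc 100 * (r : ℝ) ≤ 100 ^ r * 2 ^ r := by gcongr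
        _ = 200 ^ r := by rw [← mul_pow]; norm_num
    have hc0 : 0 ≤ c := by rw [hc]; exact Nat.cast_nonneg _
    have hkl : 0 ≤ K1 ^ r * L := by positivity
    calc (n : ℝ) ≤ 50 * r * R * c := by linarith
      _ ≤ 50 * r * (2 * (K1 ^ r * L)) * c := by
          refine mul_le_mul_of_nonneg_right ?_ hc0
          exact mul_le_mul_of_nonneg_left hR2 (by positivity)
      _ = (100 * r) * ((K1 ^ r * L) * c) := by ring
      _ ≤ 200 ^ r * ((K1 ^ r * L) * c) :=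
          mul_le_mul_of_nonneg_right h8 (mul_nonneg hkl hc0)
      _ = (200 * K1) ^ r * L * c := by rw [mul_pow (200 : ℝ) K1 r]; ring
  · intro u hu
    obtain ⟨t, ht, hut⟩ := mem_biUnion.1 hu
    exact (hU2 t).1 u hut
  · intro u hu u' hu' hne
    obtain ⟨t, ht, hut⟩ := mem_biUnion.1 hu
    obtain ⟨t', ht', hut'⟩ := mem_biUnion.1 hu'
    by_cases htt : t = t'
    · subst htt
      exact (hU2 t).2 u hut u' hut' hne
    · exact hsep t ht t' ht' htt u hut u' hut'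
  · intro u hu
    obtain ⟨t, ht, hut⟩ := mem_biUnion.1 hu
    refine ⟨t, fun p hp => ?_⟩
    have h1 := hU3 t u hut p hp
    have h2 : (R : ℝ) ≤ (200 * K1) ^ r * L := by linarith
    have h3 : ((|p.1 - (f t).1| : ℤ) : ℝ) ≤ ((R : ℤ) : ℝ) := by exact_mod_cast h1.1
    have h4 : ((|p.2 - (f t).2| : ℤ) : ℝ) ≤ ((R : ℤ) : ℝ) := by exact_mod_cast h1.2
    rw [Int.cast_natCast] at h3 h4
    exact ⟨h3.trans h2, h4.trans h2⟩

end Run7.h647.EN
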