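import Mathlib

/-! # Closed lattice curves and square annuli -/

set_option autoImplicit false

namespace Run7.h647.EN

open scoped Classical
open Finset

/-- the indicator of a proposition, modulo 2 -/
noncomputable def bb (p : Prop) : ZMod 2 := if p then 1 else 0

/-- the step from `p` to `q` is a vertical edge to the left of the cell `c` -/
noncomputable def vL (p q c : ℤ × ℤ) : ZMod 2 :=
  if p.1 = q.1 ∧ p.1 ≤ c.1 ∧ min p.2 q.2 = c.2 then 1 else 0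

/-- the step from `p` to `q` is the vertical edge with the lower end `c` -/
noncomputable def vE (p q c : ℤ × ℤ) : ZMod 2 :=
  if p.1 = q.1 ∧ p.1 = c.1 ∧ min p.2 q.2 = c.2 then 1 else 0

/-- the step from `p` to `q` is the horizontal edge with the left end `c` -/
noncomputable def hE (p q c : ℤ × ℤ) : ZMod 2 :=
  if p.2 = q.2 ∧ p.2 = c.2 ∧ min p.1 q.1 = c.1 then 1 else 0

/-- neighbours -/
def Nb (p q : ℤ × ℤ) : Prop := |q.1 - p.1| + |q.2 - p.2| = 1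

theorem Nb_cases {p q : ℤ × ℤ} (h : Nb p q) :
    (q.1 = p.1 + 1 ∧ q.2 = p.2) ∨ (q.1 = p.1 - 1 ∧ q.2 = p.2) ∨
    (q.1 = p.1 ∧ q.2 = p.2 + 1) ∨ (q.1 = p.1 ∧ q.2 = p.2 - 1) := by
  unfold Nb at h
  rcases abs_cases (q.1 - p.1) with h1 | h1 <;> rcases abs_cases (q.2 - p.2) with h2 | h2 <;> omega

theorem vL_h (p q : ℤ × ℤ) (x y : ℤ) : vL p q (x, y) + vL p q (x - 1, y) = vE p q (x, y) := by
  unfold vL vE
  simp only
  split_ifs <;> first | (exfalso; omega) | decide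

theorem vL_v {p q : ℤ × ℤ} (h : Nb p q) (x y : ℤ) :
    vL p q (x, y) + vL p q (x, y - 1) + hE p q (x, y) =
      bb (p.2 = y ∧ p.1 ≤ x) + bb (q.2 = y ∧ q.1 ≤ x) := by
  unfold vL hE bb
  simp only
  rcases Nb_cases h with h | h | h | h <;> split_ifs <;> first | (exfalso; omega) | decide

theorem add_self2 (z : ZMod 2) : z + z = 0 := CharTwo.add_self_eq_zero z

theorem tel (G : ℕ → ZMod 2) (m : ℕ) : ∑ j ∈ range m, (G j + G (j + 1)) = G 0 + G m := by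
  induction m with
  | zero => simp [add_self2]
  | succ m ih =>
    rw [sum_range_succ, ih]
    have := add_self2 (G m)
    linear_combination this

/-- the number modulo 2 of the vertical edges to the left of a cell -/
noncomputable def I (F : ℕ → ℤ × ℤ) (m : ℕ) (c : ℤ × ℤ) : ZMod 2 :=
  ∑ j ∈ range m, vL (F j) (F (j + 1)) c

theorem I_h (F : ℕ → ℤ × ℤ) (m : ℕ) (x y : ℤ) :
    I F m (x, y) + I F m (x - 1, y) = ∑ j ∈ range m, vE (F j) (F (j + 1)) (x, y) := by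
  unfold I
  rw [← sum_add_distrib]
  exact sum_congr rfl (fun j _ => vL_h _ _ _ _)

theorem I_v {F : ℕ → ℤ × ℤ} (hF : ∀ j, Nb (F j) (F (j + 1))) {m : ℕ} (hm : F m = F 0) (x y : ℤ) :
    I F m (x, y) + I F m (x, y - 1) = ∑ j ∈ range m, hE (F j) (F (j + 1)) (x, y) := by
  have h1 : I F m (x, y) + I F m (x, y - 1) + ∑ j ∈ range m, hE (F j) (F (j + 1)) (x, y) = 0 := by
    unfold I
    rw [← sum_add_distrib, ← sum_add_distrib, sum_congr rfl (fun j _ => vL_v (hF j) x y),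
      tel (fun j => bb ((F j).2 = y ∧ (F j).1 ≤ x)) m, hm, add_self2]
  have h2 := add_self2 (∑ j ∈ range m, hE (F j) (F (j + 1)) (x, y))
  linear_combination h1 - h2

/-- the block of `2 d × 2 d` sites about the cell `c` -/
def Bk (d : ℕ) (c p : ℤ × ℤ) : Prop :=
  c.1 + 1 - d ≤ p.1 ∧ p.1 ≤ c.1 + d ∧ c.2 + 1 - d ≤ p.2 ∧ p.2 ≤ c.2 + d

/-- near the first arc -/
def AN (F : ℕ → ℤ × ℤ) (a d : ℕ) (c : ℤ × ℤ) : Prop := ∃ j, j ≤ a ∧ Bk d c (F j)

/-- near the second arc -/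
def BN (F : ℕ → ℤ × ℤ) (a m d : ℕ) (c : ℤ × ℤ) : Prop := ∃ j, a < j ∧ j < m ∧ Bk d c (F j)

/-- the modified parity -/
noncomputable def J (F : ℕ → ℤ × ℤ) (a m d : ℕ) (η : ZMod 2) (c : ℤ × ℤ) : ZMod 2 :=
  if AN F a d c then I F m c + η else 0

theorem J_step {F : ℕ → ℤ × ℤ} {a m d : ℕ} (ha : a + 1 < m) {η : ZMod 2}
    {c c' : ℤ × ℤ} {e : ℕ → ZMod 2}
    (he : ∀ j, e j ≠ 0 → (Bk d c (F j) ∧ Bk d c (F (j + 1))) ∧ Bk d c' (F j) ∧ Bk d c' (F (j + 1)))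
    (hI : I F m c' + I F m c = ∑ j ∈ range m, e j)
    (hno : ¬ ((AN F a d c ∨ AN F a d c') ∧ (BN F a m d c ∨ BN F a m d c')))
    (h1 : ¬ AN F a d c → ¬ BN F a m d c → I F m c = η)
    (h2 : ¬ AN F a d c' → ¬ BN F a m d c' → I F m c' = η) :
    J F a m d η c' + J F a m d η c = ∑ j ∈ range a, e j := by
  have hη := add_self2 η
  have z1 : ¬ AN F a d c → ∑ j ∈ range a, e j = 0 := by
    intro h
    refine sum_eq_zero (fun j hj => ?_)
    by_contra h3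
    exact h ⟨j, (mem_range.1 hj).le, (he j h3).1.1⟩
  have z2 : ¬ AN F a d c' → ∑ j ∈ range a, e j = 0 := by
    intro h
    refine sum_eq_zero (fun j hj => ?_)
    by_contra h3
    exact h ⟨j, (mem_range.1 hj).le, (he j h3).2.1⟩
  by_cases hB : BN F a m d c ∨ BN F a m d c'
  · have hA : ¬ AN F a d c ∧ ¬ AN F a d c' := by
      constructor
      · intro h
        exact hno ⟨Or.inl h, hB⟩
      · intro h
        exact hno ⟨Or.inr h, hB⟩
    unfold J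
    rw [if_neg hA.1, if_neg hA.2, z1 hA.1, add_zero]
  · push Not at hB
    have h3 : ∑ j ∈ range m, e j = ∑ j ∈ range a, e j := by
      rw [← sum_range_add_sum_Ico _ (show a ≤ m by omega)]
      have : ∑ j ∈ Ico a m, e j = 0 := by
        refine sum_eq_zero (fun j hj => ?_)
        rw [mem_Ico] at hj
        by_contra h4
        apply hB.1
        by_cases h5 : a < j
        · exact ⟨j, h5, hj.2, (he j h4).1.1⟩
        · exact ⟨j + 1, by omega, by omega, (he j h4).1.2⟩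
      rw [this, add_zero]
    rw [h3] at hI
    unfold J
    by_cases hA : AN F a d c <;> by_cases hA' : AN F a d c'
    · rw [if_pos hA, if_pos hA']
      linear_combination hI + hη
    · rw [if_pos hA, if_neg hA', z2 hA']
      have h4 := h2 hA' hB.2
      rw [z2 hA', h4] at hI
      linear_combination hI
    · rw [if_neg hA, if_pos hA', z1 hA]
      have h4 := h1 hA hB.1
      rw [z1 hA, h4] at hI
      linear_combination hI
    · rw [if_neg hA, if_neg hA', z1 hA, add_zero]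

theorem line_sum (P R : Prop) (z z0 : ℤ) (N : ℕ)
    [∀ i : ℕ, Decidable (P ∧ z = z0 + (i : ℤ) ∧ R)] :
    ∑ i ∈ range N, (if P ∧ z = z0 + (i : ℤ) ∧ R then (1 : ZMod 2) else 0) =
      bb (P ∧ (z0 ≤ z ∧ z < z0 + N) ∧ R) := by
  unfold bb
  by_cases h : P ∧ (z0 ≤ z ∧ z < z0 + N) ∧ R
  · rw [if_pos h]
    rw [sum_eq_single ((z - z0).toNat)]
    · rw [if_pos]
      exact ⟨h.1, by omega, h.2.2⟩
    · intro i _ hi
      rw [if_neg]
      rintro ⟨-, h2, -⟩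
      omega
    · intro hi
      exfalso
      apply hi
      rw [mem_range]
      omega
  · rw [if_neg h]
    refine sum_eq_zero (fun i hi => ?_)
    rw [mem_range] at hi
    rw [if_neg]
    rintro ⟨h1, h2, h3⟩
    exact h ⟨h1, ⟨by omega, by omega⟩, h3⟩

/-- the square of radius `ρ` -/
def Q (v : ℤ × ℤ) (ρ : ℕ) (p : ℤ × ℤ) : Prop :=
  (v.1 - ρ ≤ p.1 ∧ p.1 ≤ v.1 + ρ) ∧ (v.2 - ρ ≤ p.2 ∧ p.2 ≤ v.2 + ρ)

theorem step_Q {p q : ℤ × ℤ} (h : Nb p q) (v : ℤ × ℤ) (ρ : ℕ) :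
    ∑ i ∈ range (2 * ρ + 1), hE p q (v.1 + ρ, v.2 - ρ + (i : ℤ)) +
    ∑ i ∈ range (2 * ρ + 1), hE p q (v.1 - ρ - 1, v.2 - ρ + (i : ℤ)) +
    ∑ i ∈ range (2 * ρ + 1), vE p q (v.1 - ρ + (i : ℤ), v.2 + ρ) +
    ∑ i ∈ range (2 * ρ + 1), vE p q (v.1 - ρ + (i : ℤ), v.2 - ρ - 1) =
      bb (Q v ρ p) + bb (Q v ρ q) := by
  unfold hE vE
  simp only
  rw [line_sum, line_sum, line_sum, line_sum]
  unfold bb Q
  push_cast
  rcases Nb_cases h with h | h | h | h <;> split_ifs <;> first | (exfalso; omega) | decide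

/-- the cells on the boundary of the square of radius `ρ` -/
def RC (v : ℤ × ℤ) (ρ : ℕ) (c : ℤ × ℤ) : Prop :=
  ((c.1 = v.1 + ρ ∨ c.1 = v.1 - ρ - 1) ∧ v.2 - ρ - 1 ≤ c.2 ∧ c.2 ≤ v.2 + ρ) ∨
  ((c.2 = v.2 + ρ ∨ c.2 = v.2 - ρ - 1) ∧ v.1 - ρ - 1 ≤ c.1 ∧ c.1 ≤ v.1 + ρ)

/-- the annulus about the boundary of the square of radius `ρ` -/
def An (v : ℤ × ℤ) (ρ d : ℕ) (p : ℤ × ℤ) : Prop :=
  (v.1 - ρ - d ≤ p.1 ∧ p.1 ≤ v.1 + ρ + d ∧ v.2 - ρ - d ≤ p.2 ∧ p.2 ≤ v.2 + ρ + d) ∧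
  (v.1 + ρ + 1 - d ≤ p.1 ∨ p.1 ≤ v.1 - ρ - 1 + d ∨ v.2 + ρ + 1 - d ≤ p.2 ∨ p.2 ≤ v.2 - ρ - 1 + d)

theorem RC_An {v : ℤ × ℤ} {ρ d : ℕ} {c p : ℤ × ℤ} (hc : RC v ρ c) (hp : Bk d c p) :
    An v ρ d p := by
  unfold RC at hc
  unfold Bk at hp
  unfold An
  omega

theorem ring {F : ℕ → ℤ × ℤ} (hF : ∀ j, Nb (F j) (F (j + 1))) {m : ℕ} (hm : F m = F 0)
    {a d : ℕ} (ha : a + 1 < m) (hd : 1 ≤ d) (v : ℤ × ℤ) (ρ : ℕ) (h0 : Q v ρ (F 0))
    (h1 : ¬ Q v ρ (F a)) (η : ZMod 2) :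
    (∃ j j', j ≤ a ∧ a < j' ∧ j' < m ∧ An v ρ d (F j) ∧
      |(F j).1 - (F j').1| + |(F j).2 - (F j').2| ≤ 4 * d) ∨
    ∃ c, RC v ρ c ∧ (∀ j, j < m → ¬ Bk d c (F j)) ∧ I F m c ≠ η := by
  by_contra hcon
  push Not at hcon
  obtain ⟨hP, hH⟩ := hcon
  have hfree : ∀ c, RC v ρ c → ¬ AN F a d c → ¬ BN F a m d c → I F m c = η := by
    intro c hc hA hB
    refine hH c hc (fun j hj hb => ?_)
    rcases Nat.lt_or_ge a j with h | h
    · exact hB ⟨j, h, hj, hb⟩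
    · exact hA ⟨j, h, hb⟩
  have hno : ∀ c c', RC v ρ c → RC v ρ c' → |c.1 - c'.1| + |c.2 - c'.2| ≤ 1 →
      ¬ ((AN F a d c ∨ AN F a d c') ∧ (BN F a m d c ∨ BN F a m d c')) := by
    rintro c c' hc hc' hcc ⟨hA, hB⟩
    obtain ⟨j, hj, c1, hc1, h11, h12⟩ : ∃ j, j ≤ a ∧ ∃ c1, (c1 = c ∨ c1 = c') ∧
        RC v ρ c1 ∧ Bk d c1 (F j) := by
      rcases hA with ⟨j, hj, hb⟩ | ⟨j, hj, hb⟩
      · exact ⟨j, hj, c, Or.inl rfl, hc, hb⟩
      · exact ⟨j, hj, c', Or.inr rfl, hc', hb⟩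
    obtain ⟨j', hj', hjm', c2, hc2, h22⟩ : ∃ j', a < j' ∧ j' < m ∧ ∃ c2, (c2 = c ∨ c2 = c') ∧
        Bk d c2 (F j') := by
      rcases hB with ⟨j, hj, hjm, hb⟩ | ⟨j, hj, hjm, hb⟩
      · exact ⟨j, hj, hjm, c, Or.inl rfl, hb⟩
      · exact ⟨j, hj, hjm, c', Or.inr rfl, hb⟩
    have h5 := hP j j' hj hj' hjm' (RC_An h11 h12)
    have h6 : |c1.1 - c2.1| + |c1.2 - c2.2| ≤ 1 := by
      rcases hc1 with rfl | rfl <;> rcases hc2 with rfl | rfl
      · simp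
      · exact hcc
      · rw [abs_sub_comm, abs_sub_comm c1.2]
        exact hcc
      · simp
    unfold Bk at h12 h22
    rcases abs_cases (c1.1 - c2.1) with e1 | e1 <;> rcases abs_cases (c1.2 - c2.2) with e2 | e2 <;>
    rcases abs_cases ((F j).1 - (F j').1) with e3 | e3 <;>
    rcases abs_cases ((F j).2 - (F j').2) with e4 | e4 <;> omega
  have stepV : ∀ x y : ℤ, RC v ρ (x, y) → RC v ρ (x, y - 1) →
      J F a m d η (x, y) + J F a m d η (x, y - 1) =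
        ∑ j ∈ range a, hE (F j) (F (j + 1)) (x, y) := by
    intro x y hc' hc
    refine J_step (c := (x, y - 1)) (c' := (x, y)) ha ?_ (I_v hF hm x y) (hno _ _ hc hc' ?_)
      (hfree _ hc) (hfree _ hc')
    · intro j hj
      have h2 : (F j).2 = (F (j + 1)).2 ∧ (F j).2 = y ∧ min (F j).1 (F (j + 1)).1 = x := by
        by_contra h3
        exact hj (by unfold hE; exact if_neg h3)
      have h3 := Nb_cases (hF j)
      unfold Bk
      simp only
      omega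
    · simp
  have stepH : ∀ x y : ℤ, RC v ρ (x, y) → RC v ρ (x - 1, y) →
      J F a m d η (x, y) + J F a m d η (x - 1, y) =
        ∑ j ∈ range a, vE (F j) (F (j + 1)) (x, y) := by
    intro x y hc' hc
    refine J_step (c := (x - 1, y)) (c' := (x, y)) ha ?_ (I_h F m x y) (hno _ _ hc hc' ?_)
      (hfree _ hc) (hfree _ hc')
    · intro j hj
      have h2 : (F j).1 = (F (j + 1)).1 ∧ (F j).1 = x ∧ min (F j).2 (F (j + 1)).2 = y := by
        by_contra h3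
        exact hj (by unfold vE; exact if_neg h3)
      have h3 := Nb_cases (hF j)
      unfold Bk
      simp only
      omega
    · simp
  -- vertical sides
  have sideV : ∀ x : ℤ, (x = v.1 + ρ ∨ x = v.1 - ρ - 1) →
      ∑ i ∈ range (2 * ρ + 1), ∑ j ∈ range a, hE (F j) (F (j + 1)) (x, v.2 - ρ + (i : ℤ)) =
        J F a m d η (x, v.2 - ρ - 1) + J F a m d η (x, v.2 + ρ) := by
    intro x hx
    have h2 := tel (fun i => J F a m d η (x, v.2 - ρ - 1 + (i : ℤ))) (2 * ρ + 1)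
    have e1 : v.2 - (ρ : ℤ) - 1 + ((0 : ℕ) : ℤ) = v.2 - ρ - 1 := by push_cast; ring
    have e2 : v.2 - (ρ : ℤ) - 1 + ((2 * ρ + 1 : ℕ) : ℤ) = v.2 + ρ := by push_cast; ring
    rw [e1, e2] at h2
    rw [← h2]
    refine sum_congr rfl (fun i hi => ?_)
    rw [mem_range] at hi
    rw [← stepV]
    · rw [add_comm]
      congr 3
      · ring
      · push_cast
        ring
    · left
      refine ⟨hx, ?_, ?_⟩ <;> simp only <;> omega
    · left
      refine ⟨hx, ?_, ?_⟩ <;> simp only <;> omega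
  have sideH : ∀ y : ℤ, (y = v.2 + ρ ∨ y = v.2 - ρ - 1) →
      ∑ i ∈ range (2 * ρ + 1), ∑ j ∈ range a, vE (F j) (F (j + 1)) (v.1 - ρ + (i : ℤ), y) =
        J F a m d η (v.1 - ρ - 1, y) + J F a m d η (v.1 + ρ, y) := by
    intro y hy
    have h2 := tel (fun i => J F a m d η (v.1 - ρ - 1 + (i : ℤ), y)) (2 * ρ + 1)
    have e1 : v.1 - (ρ : ℤ) - 1 + ((0 : ℕ) : ℤ) = v.1 - ρ - 1 := by push_cast; ring
    have e2 : v.1 - (ρ : ℤ) - 1 + ((2 * ρ + 1 : ℕ) : ℤ) = v.1 + ρ := by push_cast; ring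
    rw [e1, e2] at h2
    rw [← h2]
    refine sum_congr rfl (fun i hi => ?_)
    rw [mem_range] at hi
    rw [← stepH]
    · rw [add_comm]
      congr 3
      · ring
      · push_cast
        ring
    · right
      refine ⟨hy, ?_, ?_⟩ <;> simp only <;> omega
    · right
      refine ⟨hy, ?_, ?_⟩ <;> simp only <;> omega
  have tot : ∑ j ∈ range a, (bb (Q v ρ (F j)) + bb (Q v ρ (F (j + 1)))) = 0 := by
    rw [← sum_congr rfl (fun j _ => step_Q (hF j) v ρ), sum_add_distrib, sum_add_distrib,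
      sum_add_distrib]
    rw [sum_comm (s := range a), sum_comm (s := range a), sum_comm (s := range a),
      sum_comm (s := range a)]
    rw [sideV _ (Or.inl rfl), sideV _ (Or.inr rfl), sideH _ (Or.inl rfl), sideH _ (Or.inr rfl)]
    have q1 := add_self2 (J F a m d η (v.1 + ρ, v.2 - ρ - 1))
    have q2 := add_self2 (J F a m d η (v.1 + ρ, v.2 + ρ))
    have q3 := add_self2 (J F a m d η (v.1 - ρ - 1, v.2 - ρ - 1))
    have q4 := add_self2 (J F a m d η (v.1 - ρ - 1, v.2 + ρ))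
    linear_combination q1 + q2 + q3 + q4
  rw [tel (fun j => bb (Q v ρ (F j)))] at tot
  unfold bb at tot
  rw [if_pos h0, if_neg h1] at tot
  exact absurd tot (by decide)

end Run7.h647.EN
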